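import Pool.Agent.Helper25.FN.Spec

/-!
# MP_6e521b_an, part GR3: rapidly decreasing elements belong to the Hilbert space
-/

set_option autoImplicit false

namespace Pool.Agent.Helper74.FN.GR3

open MeasureTheory Pool.Agent.Helper25.FN
open Pool.Agent.Helper25.FB.Inj (Entire star)

lemma nm_nonneg {n : ℕ} (z : V n) : 0 ≤ nm z := Real.sqrt_nonneg _

lemma le_nm {n : ℕ} (z : V n) (j : Fin n) : ‖z j‖ ≤ nm z := by
  unfold nm
  rw [← Real.sqrt_sq (norm_nonneg (z j))]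
  apply Real.sqrt_le_sqrt
  exact Finset.single_le_sum (f := fun j => ‖z j‖ ^ 2) (fun i _ => by positivity)
    (Finset.mem_univ j)

lemma norm_le_nm {n : ℕ} (z : V n) : ‖z‖ ≤ nm z :=
  (pi_norm_le_iff_of_nonneg (nm_nonneg z)).2 (le_nm z)

lemma continuous_nm {n : ℕ} : Continuous (nm : V n → ℝ) := by
  unfold nm
  fun_prop

lemma poly_bound {n : ℕ} (q : MvPolynomial (Fin n) ℂ) (d : ℕ) (hd : q.totalDegree ≤ d) :
    ∃ M : ℝ, 0 ≤ M ∧ ∀ z : V n, ‖MvPolynomial.eval z q‖ ≤ M * (1 + nm z) ^ d := by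
  refine ⟨∑ α ∈ q.support, ‖q.coeff α‖, Finset.sum_nonneg fun _ _ => norm_nonneg _, fun z => ?_⟩
  have hu : 1 ≤ 1 + nm z := by linarith [nm_nonneg z]
  rw [MvPolynomial.eval_eq']
  refine (norm_sum_le _ _).trans ?_
  rw [Finset.sum_mul]
  refine Finset.sum_le_sum fun α hα => ?_
  rw [norm_mul]
  refine mul_le_mul_of_nonneg_left ?_ (norm_nonneg _)
  rw [norm_prod]
  calc ∏ i, ‖z i ^ α i‖ ≤ ∏ i, (1 + nm z) ^ α i := by
        refine Finset.prod_le_prod (fun _ _ => norm_nonneg _) fun i _ => ?_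
        rw [norm_pow]
        exact pow_le_pow_left₀ (norm_nonneg _) ((le_nm z i).trans (by linarith)) _
    _ = (1 + nm z) ^ (∑ i, α i) := by rw [Finset.prod_pow_eq_pow_sum]
    _ ≤ (1 + nm z) ^ d := by
        apply pow_le_pow_right₀ hu
        have h := MvPolynomial.le_totalDegree hα
        rw [Finsupp.sum_fintype _ _ (fun _ => rfl)] at h
        exact h.trans hd

theorem main : S_GR3 := by
  intro n P
  obtain ⟨M, hM0, hM⟩ := poly_bound (lead P) P.totalDegree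
    (MvPolynomial.homogeneousComponent_isHomogeneous _ _).totalDegree_le
  set d := P.totalDegree with hd
  refine ⟨-(n + 1 + d : ℤ), fun Φ f hΦ hf => ?_⟩
  obtain ⟨hfe, C, hC⟩ := hf
  refine ⟨hfe, ?_⟩
  have hcf : Continuous f := by
    have : Differentiable ℂ f := hfe
    exact this.continuous
  have hcn : Continuous (nm : V n → ℝ) := continuous_nm
  have hne : ∀ z : V n, (1 + nm z) ≠ 0 := fun z => by linarith [nm_nonneg z]
  have hz : ∀ k : ℤ, Continuous (fun z : V n => (1 + nm z) ^ k) := fun k =>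
    (continuous_const.add hcn).zpow₀ k (fun z => Or.inl (hne z))
  have hpv : Continuous (fun z : V n => pv P z) := by
    unfold pv
    exact MvPolynomial.continuous_eval _
  have hden : Continuous (fun z : V n => den P Φ z) := by
    unfold den wt
    have h1 := hz (-(P.totalDegree : ℤ))
    have h2 := hz ((P.totalDegree : ℤ) - 2)
    have h3 : Continuous fun z : V n => Real.exp (-2 * Φ z) := by fun_prop
    exact (((hpv.norm.pow 2).mul h1).add h2).mul h3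
  have hcont : Continuous (fun z : V n => ‖f z‖ ^ 2 * den P Φ z) := (hcf.norm.pow 2).mul hden
  have hint : Integrable (fun z : V n => (1 + ‖z‖) ^ (-((2 * n + 1 : ℕ) : ℝ))) := by
    apply integrable_one_add_norm
    have : Module.finrank ℝ (V n) = 2 * n := by
      change Module.finrank ℝ (Fin n → ℂ) = 2 * n
      rw [Module.finrank_pi_fintype]
      simp [Complex.finrank_real_complex, mul_comm]
    rw [this]
    push_cast
    linarith
  refine Integrable.mono' (hint.const_mul (C ^ 2 * (M ^ 2 + 1))) hcont.aestronglyMeasurable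
    (Filter.Eventually.of_forall fun z => ?_)
  set u := 1 + nm z with hu
  have hu1 : 1 ≤ u := by linarith [nm_nonneg z]
  have hu0 : 0 < u := by linarith
  have hun : u ≠ 0 := hu0.ne'
  have hw : 0 < wt Φ z := Real.exp_pos _
  have hdenle : den P Φ z ≤ (M ^ 2 + 1) * u ^ (d : ℤ) * wt Φ z := by
    unfold den
    refine mul_le_mul_of_nonneg_right ?_ hw.le
    have h1 : ‖pv P z‖ ^ 2 ≤ M ^ 2 * (u ^ (d : ℤ) * u ^ (d : ℤ)) := by
      have := pow_le_pow_left₀ (norm_nonneg _) (hM z) 2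
      rw [zpow_natCast]
      calc ‖pv P z‖ ^ 2 ≤ (M * (1 + nm z) ^ d) ^ 2 := this
        _ = M ^ 2 * (u ^ d * u ^ d) := by rw [hu]; ring
    have h2 : ‖pv P z‖ ^ 2 * u ^ (-(d : ℤ)) ≤ M ^ 2 * u ^ (d : ℤ) := by
      calc ‖pv P z‖ ^ 2 * u ^ (-(d : ℤ)) ≤ M ^ 2 * (u ^ (d : ℤ) * u ^ (d : ℤ)) * u ^ (-(d : ℤ)) :=
            mul_le_mul_of_nonneg_right h1 (by positivity)
        _ = M ^ 2 * u ^ (d : ℤ) * (u ^ (d : ℤ) * u ^ (-(d : ℤ))) := by ring
        _ = M ^ 2 * u ^ (d : ℤ) := by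
            rw [← zpow_add₀ hun]; simp
    have h3 : u ^ ((d : ℤ) - 2) ≤ u ^ (d : ℤ) := zpow_le_zpow_right₀ hu1 (by omega)
    calc _ ≤ M ^ 2 * u ^ (d : ℤ) + u ^ (d : ℤ) := add_le_add h2 h3
      _ = (M ^ 2 + 1) * u ^ (d : ℤ) := by ring
  have hden0 : 0 ≤ den P Φ z := by
    unfold den
    have : 0 ≤ 1 + nm z := hu0.le
    positivity
  have hf2 : ‖f z‖ ^ 2 ≤ C ^ 2 * (u ^ (-(n + 1 + d : ℤ)) * u ^ (-(n + 1 + d : ℤ))) *
      (Real.exp (Φ z)) ^ 2 := by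
    have := pow_le_pow_left₀ (norm_nonneg _) (hC z) 2
    calc ‖f z‖ ^ 2 ≤ (C * (1 + nm z) ^ (-(n + 1 + d : ℤ)) * Real.exp (Φ z)) ^ 2 := this
      _ = _ := by rw [hu]; ring
  have hwe : (Real.exp (Φ z)) ^ 2 * wt Φ z = 1 := by
    unfold wt
    rw [← Real.exp_nat_mul, ← Real.exp_add]
    norm_num
  rw [Real.norm_of_nonneg (by positivity)]
  have hfin : u ^ (-(n + 1 + d : ℤ)) * u ^ (-(n + 1 + d : ℤ)) * u ^ (d : ℤ) ≤
      (1 + ‖z‖) ^ (-((2 * n + 1 : ℕ) : ℝ)) := by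
    rw [← zpow_add₀ hun, ← zpow_add₀ hun, Real.rpow_neg (by positivity), Real.rpow_natCast]
    calc u ^ (-(n + 1 + d : ℤ) + -(n + 1 + d : ℤ) + (d : ℤ)) ≤ u ^ (-((2 * n + 1 : ℕ) : ℤ)) :=
          zpow_le_zpow_right₀ hu1 (by push_cast; omega)
      _ = (u ^ (2 * n + 1))⁻¹ := by rw [zpow_neg, zpow_natCast]
      _ ≤ ((1 + ‖z‖) ^ (2 * n + 1))⁻¹ := by
          apply inv_anti₀ (by positivity)
          apply pow_le_pow_left₀ (by positivity)
          linarith [norm_le_nm z]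
  calc ‖f z‖ ^ 2 * den P Φ z ≤ (C ^ 2 * (u ^ (-(n + 1 + d : ℤ)) * u ^ (-(n + 1 + d : ℤ))) *
      (Real.exp (Φ z)) ^ 2) * ((M ^ 2 + 1) * u ^ (d : ℤ) * wt Φ z) :=
        mul_le_mul hf2 hdenle hden0 (by positivity)
    _ = (C ^ 2 * (M ^ 2 + 1)) * (u ^ (-(n + 1 + d : ℤ)) * u ^ (-(n + 1 + d : ℤ)) * u ^ (d : ℤ)) *
        ((Real.exp (Φ z)) ^ 2 * wt Φ z) := by ring
    _ = (C ^ 2 * (M ^ 2 + 1)) * (u ^ (-(n + 1 + d : ℤ)) * u ^ (-(n + 1 + d : ℤ)) * u ^ (d : ℤ)) := by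
        rw [hwe, mul_one]
    _ ≤ (C ^ 2 * (M ^ 2 + 1)) * (1 + ‖z‖) ^ (-((2 * n + 1 : ℕ) : ℝ)) :=
        mul_le_mul_of_nonneg_left hfin (by positivity)

end Pool.Agent.Helper74.FN.GR3
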